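import Mathlib

/-!
# A rearrangement inequality
-/

set_option autoImplicit false
set_option linter.unusedVariables false

namespace CY

open Finset

/-- Abel summation. -/
theorem rearr_abel (n : ℕ) (a b c : ℕ → ℤ)
    (ha : ∀ i < n, ∀ j < n, i ≤ j → a j ≤ a i)
    (hbc : ∀ k ≤ n, ∑ i ∈ range k, b i ≤ ∑ i ∈ range k, c i) (α : ℤ)
    (hα : ∀ i < n, α ≤ a i) :
    ∑ i ∈ range n, b i * a i + α * (∑ i ∈ range n, c i - ∑ i ∈ range n, b i) ≤
      ∑ i ∈ range n, c i * a i := by
  induction n generalizing α with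
  | zero => simp
  | succ n ih =>
    have h1 := ih (fun i hi j hj hij => ha i (by omega) j (by omega) hij)
      (fun k hk => hbc k (by omega)) (a n) (fun i hi => ha i (by omega) n (by omega) hi.le)
    have h2 := hbc (n + 1) le_rfl
    have h3 := hα n (by omega)
    simp only [sum_range_succ] at h2 ⊢
    nlinarith

/-- The decreasing rearrangement. -/
theorem rearr_sort {ι : Type*} [DecidableEq ι] (J : Finset ι) (x y : ι → ℕ) (h : ℕ → ℕ) :
    (∀ S ⊆ J, ∑ j ∈ S, x j ≤ ∑ i ∈ range S.card, h i) →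
    ∃ z : ℕ → ℕ, (∀ k ≤ J.card, ∃ S ⊆ J, S.card = k ∧ ∑ i ∈ range k, z i = ∑ j ∈ S, y j) ∧
      ∀ α : ℤ, (∀ j ∈ J, α ≤ y j) →
        ∑ j ∈ J, (x j : ℤ) * y j + α * (∑ i ∈ range J.card, (h i : ℤ) - ∑ j ∈ J, (x j : ℤ)) ≤
          ∑ i ∈ range J.card, (h i : ℤ) * z i := by
  induction J using Finset.induction_on_min_value (f := y) with
  | empty =>
    intro _
    refine ⟨fun _ => 0, fun k hk => ⟨∅, by simp, ?_, ?_⟩, fun α _ => by simp⟩
    · have : k = 0 := by simpa using hk
      simp [this]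
    · simp
  | insert a s has hmin ih =>
    intro hx
    obtain ⟨z, hz1, hz2⟩ := ih (fun S hS => hx S (hS.trans (subset_insert _ _)))
    have hcard : (insert a s).card = s.card + 1 := card_insert_of_notMem has
    refine ⟨fun i => if i = s.card then y a else z i, ?_, ?_⟩
    · intro k hk
      rw [hcard] at hk
      have hsum : ∀ k ≤ s.card, ∑ i ∈ range k, (if i = s.card then y a else z i) =
          ∑ i ∈ range k, z i := by
        intro k hk
        refine sum_congr rfl fun i hi => ?_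
        rw [mem_range] at hi
        rw [if_neg (by omega)]
      rcases Nat.lt_or_ge s.card k with h1 | h1
      · have h2 : k = s.card + 1 := by omega
        subst h2
        refine ⟨insert a s, Subset.refl _, hcard, ?_⟩
        rw [sum_range_succ, hsum _ le_rfl, if_pos rfl, sum_insert has]
        obtain ⟨S, hS, hSc, hS2⟩ := hz1 s.card le_rfl
        have h3 : S = s := eq_of_subset_of_card_le hS hSc.ge
        rw [hS2, h3]
        ring
      · obtain ⟨S, hS, hSc, hS2⟩ := hz1 k h1
        exact ⟨S, hS.trans (subset_insert _ _), hSc, by rw [hsum k h1, hS2]⟩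
    · intro α hα
      have h1 := hz2 (y a) (fun j hj => by exact_mod_cast hmin j hj)
      have h2 := hx (insert a s) (Subset.refl _)
      rw [hcard] at h2 ⊢
      have h3 : ∑ i ∈ range s.card, (h i : ℤ) * ((if i = s.card then y a else z i : ℕ) : ℤ) =
          ∑ i ∈ range s.card, (h i : ℤ) * z i := by
        refine sum_congr rfl fun i hi => ?_
        rw [mem_range] at hi
        rw [if_neg (by omega)]
      have h4 := hα a (mem_insert_self _ _)
      have h5 : ((∑ j ∈ insert a s, x j : ℕ) : ℤ) ≤ ((∑ i ∈ range (s.card + 1), h i : ℕ) : ℤ) := by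
        exact_mod_cast h2
      push_cast at h5
      rw [sum_insert has] at h5
      rw [sum_insert has, sum_insert has, sum_range_succ, sum_range_succ (fun i => (h i : ℤ) *
        ((if i = s.card then y a else z i : ℕ) : ℤ)), h3, if_pos rfl]
      rw [sum_range_succ] at h5
      nlinarith

/-- Two Abel summations. -/
theorem rearr {ι : Type*} [DecidableEq ι] (J : Finset ι) (x y : ι → ℕ) (h h' : ℕ → ℕ)
    (ha : ∀ i < J.card, ∀ j < J.card, i ≤ j → h j ≤ h i)
    (ha' : ∀ i < J.card, ∀ j < J.card, i ≤ j → h' j ≤ h' i)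
    (hx : ∀ S ⊆ J, ∑ j ∈ S, x j ≤ ∑ i ∈ Finset.range S.card, h i)
    (hy : ∀ S ⊆ J, ∑ j ∈ S, y j ≤ ∑ i ∈ Finset.range S.card, h' i) :
    ∑ j ∈ J, x j * y j ≤ ∑ i ∈ Finset.range J.card, h i * h' i := by
  obtain ⟨z, hz1, hz2⟩ := rearr_sort J x y h hx
  have h1 := hz2 0 (fun j _ => by positivity)
  rw [zero_mul, add_zero] at h1
  have h2 := rearr_abel J.card (fun i => (h i : ℤ)) (fun i => (z i : ℤ)) (fun i => (h' i : ℤ))
    (fun i hi j hj hij => by exact_mod_cast ha i hi j hj hij) (fun k hk => by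
      obtain ⟨S, hS, hSc, hS2⟩ := hz1 k hk
      have := hy S hS
      rw [hSc, ← hS2] at this
      exact_mod_cast this) 0 (fun i _ => by positivity)
  rw [zero_mul, add_zero] at h2
  have h3 : ∑ i ∈ range J.card, (h i : ℤ) * z i = ∑ i ∈ range J.card, (z i : ℤ) * h i :=
    sum_congr rfl fun i _ => mul_comm _ _
  have h4 : ∑ i ∈ range J.card, (h i : ℤ) * h' i = ∑ i ∈ range J.card, (h' i : ℤ) * h i :=
    sum_congr rfl fun i _ => mul_comm _ _
  have h5 : ∑ j ∈ J, (x j : ℤ) * y j ≤ ∑ i ∈ range J.card, (h i : ℤ) * h' i := by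
    rw [h4]
    exact (h1.trans h3.le).trans h2
  exact_mod_cast h5

end CY
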